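import Pool.Agent.H56.QC.Defs

/-! M8: extension of the potential by `|x|^2 / 2`, and convexity. -/

set_option autoImplicit false

namespace Pool.Agent.H56.QC

open MeasureTheory Set Filter Topology Metric
open scoped RealInnerProductSpace ENNReal NNReal

variable {n : ℕ}

/-- The radial retraction onto the closed unit ball. -/
noncomputable def pot_rho (x : E n) : E n := (max 1 ‖x‖)⁻¹ • x

theorem pot_max_pos (x : E n) : 0 < max 1 ‖x‖ := lt_max_of_lt_left one_pos

theorem pot_rho_of_le {x : E n} (h : ‖x‖ ≤ 1) : pot_rho x = x := by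
  rw [pot_rho, max_eq_left h, inv_one, one_smul]

theorem pot_rho_norm_le (x : E n) : ‖pot_rho x‖ ≤ 1 := by
  rw [pot_rho, norm_smul, norm_inv, Real.norm_of_nonneg (pot_max_pos x).le,
    inv_mul_le_iff₀ (pot_max_pos x), mul_one]
  exact le_max_right _ _

theorem pot_rho_norm_eq {x : E n} (h : 1 ≤ ‖x‖) : ‖pot_rho x‖ = 1 := by
  rw [pot_rho, norm_smul, norm_inv, Real.norm_of_nonneg (pot_max_pos x).le, max_eq_right h]
  exact inv_mul_cancel₀ (by linarith)

theorem pot_rho_lip (x y : E n) : ‖pot_rho x - pot_rho y‖ ≤ 2 * ‖x - y‖ := by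
  have hx := pot_max_pos x
  have hy := pot_max_pos y
  have e : pot_rho x - pot_rho y = (max 1 ‖x‖)⁻¹ • (x - y) +
      ((max 1 ‖x‖)⁻¹ - (max 1 ‖y‖)⁻¹) • y := by
    rw [pot_rho, pot_rho, smul_sub, sub_smul]
    abel
  have h1 : ‖(max 1 ‖x‖)⁻¹ • (x - y)‖ ≤ ‖x - y‖ := by
    rw [norm_smul, norm_inv, Real.norm_of_nonneg hx.le, inv_mul_le_iff₀ hx]
    exact le_mul_of_one_le_left (norm_nonneg _) (le_max_left _ _)
  have h2 : ‖((max 1 ‖x‖)⁻¹ - (max 1 ‖y‖)⁻¹) • y‖ ≤ ‖x - y‖ := by
    rw [norm_smul, Real.norm_eq_abs, inv_sub_inv hx.ne' hy.ne', abs_div, abs_of_pos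
      (mul_pos hx hy), div_mul_eq_mul_div, div_le_iff₀ (mul_pos hx hy)]
    have h3 : |max 1 ‖y‖ - max 1 ‖x‖| ≤ ‖x - y‖ := by
      refine (abs_max_sub_max_le_abs' ‖y‖ ‖x‖).trans ?_
      rw [norm_sub_rev]
      exact abs_norm_sub_norm_le y x
    calc |max 1 ‖y‖ - max 1 ‖x‖| * ‖y‖ ≤ ‖x - y‖ * max 1 ‖y‖ :=
          mul_le_mul h3 (le_max_right _ _) (norm_nonneg _) (norm_nonneg _)
      _ ≤ ‖x - y‖ * (max 1 ‖x‖ * max 1 ‖y‖) := by
          apply mul_le_mul_of_nonneg_left _ (norm_nonneg _)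
          exact le_mul_of_one_le_left hy.le (le_max_left _ _)
  rw [e]
  refine (norm_add_le _ _).trans ?_
  linarith
where
  abs_max_sub_max_le_abs' (a b : ℝ) : |max 1 a - max 1 b| ≤ |a - b| := by
    rcases le_total a 1 with ha | ha <;> rcases le_total b 1 with hb | hb
    · rw [max_eq_left ha, max_eq_left hb]; simp
    · rw [max_eq_left ha, max_eq_right hb, abs_sub_comm, abs_sub_comm a b,
        abs_of_nonneg (by linarith), abs_of_nonneg (by linarith)]
      linarith
    · rw [max_eq_right ha, max_eq_left hb, abs_of_nonneg (by linarith),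
        abs_of_nonneg (by linarith)]
      linarith
    · rw [max_eq_right ha, max_eq_right hb]

theorem pot_sq (x : E n) : HasGradientAt (fun y : E n => ‖y‖ ^ 2 / 2) x x := by
  rw [hasGradientAt_iff_hasFDerivAt]
  have h := (hasStrictFDerivAt_norm_sq x).hasFDerivAt.const_mul (2⁻¹ : ℝ)
  have e : (fun y : E n => ‖y‖ ^ 2 / 2) = fun y : E n => (2⁻¹ : ℝ) * ‖y‖ ^ 2 := by
    funext y; ring
  rw [e]
  refine h.congr_fderiv ?_
  ext v
  simp [InnerProductSpace.toDual_apply_apply]

theorem pot_add {u v : E n → ℝ} {a b x : E n} (hu : HasGradientAt u a x)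
    (hv : HasGradientAt v b x) : HasGradientAt (fun y => u y + v y) (a + b) x := by
  rw [hasGradientAt_iff_hasFDerivAt] at hu hv ⊢
  rw [map_add]
  exact hu.add hv

theorem pot_sub {u v : E n → ℝ} {a b x : E n} (hu : HasGradientAt u a x)
    (hv : HasGradientAt v b x) : HasGradientAt (fun y => u y - v y) (a - b) x := by
  rw [hasGradientAt_iff_hasFDerivAt] at hu hv ⊢
  rw [map_sub]
  exact hu.sub hv

/-- Mean value inequality for gradients on a convex set. -/
theorem pot_mean {v : E n → ℝ} {g : E n → E n} {s : Set (E n)} (hs : Convex ℝ s) {C : ℝ}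
    (hv : ∀ x ∈ s, HasGradientAt v (g x) x) (hg : ∀ x ∈ s, ‖g x‖ ≤ C) {x y : E n} (hx : x ∈ s)
    (hy : y ∈ s) : |v y - v x| ≤ C * ‖y - x‖ := by
  have := hs.norm_image_sub_le_of_norm_hasFDerivWithin_le (C := C)
    (fun z hz => (hasGradientAt_iff_hasFDerivAt.1 (hv z hz)).hasFDerivWithinAt)
    (fun z hz => by rw [LinearIsometryEquiv.norm_map]; exact hg z hz) hx hy
  exact this

theorem extend_potential (_hn : 2 ≤ n) (f : E n → E n) (hf : ContinuousOn f (closedBall 0 1))
    (hb : ∀ x ∈ sphere (0 : E n) 1, f x = x) (u : E n → ℝ)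
    (hu : ∀ x ∈ ball (0 : E n) 1, HasGradientAt u (f x) x) :
    ∃ U : E n → ℝ, ∀ x, HasGradientAt U (if ‖x‖ < 1 then f x else x) x := by
  set g : E n → E n := fun x => f x - x with hg
  set v : E n → ℝ := fun x => u x - ‖x‖ ^ 2 / 2 with hv
  have hvg : ∀ x ∈ ball (0 : E n) 1, HasGradientAt v (g x) x := fun x hx =>
    pot_sub (hu x hx) (pot_sq x)
  have hgc : ContinuousOn g (closedBall 0 1) := hf.sub continuousOn_id
  obtain ⟨M, hM⟩ := (isCompact_closedBall (0 : E n) 1).exists_bound_of_continuousOn hgc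
  have hM0 : 0 ≤ M := (norm_nonneg _).trans (hM 0 (by simp))
  have hlip : LipschitzOnWith ⟨M, hM0⟩ v (ball 0 1) := by
    refine LipschitzOnWith.of_dist_le_mul fun x hx y hy => ?_
    rw [Real.dist_eq, dist_eq_norm]
    exact pot_mean (convex_ball 0 1) hvg (fun z hz => hM z (ball_subset_closedBall hz)) hy hx
  obtain ⟨w, hw, hwv⟩ := hlip.extend_real
  have hwc : Continuous w := hw.continuous
  -- flatness at the sphere
  have flat : ∀ x0 : E n, ‖x0‖ = 1 → ∀ ε > (0 : ℝ), ∃ δ > (0 : ℝ), ∀ y : E n, ‖y‖ ≤ 1 →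
      ‖y - x0‖ < δ → |w y - w x0| ≤ ε * ‖y - x0‖ := by
    intro x0 hx0 ε hε
    have hg0 : g x0 = 0 := by
      rw [hg]
      simp only
      rw [hb x0 (by rw [mem_sphere_zero_iff_norm]; exact hx0), sub_self]
    have h1 : ∀ᶠ y in 𝓝[closedBall 0 1] x0, ‖g y‖ < ε := by
      have h2 := (hgc x0 (by rw [mem_closedBall_zero_iff]; exact hx0.le)).norm
      have h3 : ‖g x0‖ < ε := by rw [hg0, norm_zero]; exact hε
      exact h2.eventually (gt_mem_nhds h3)
    obtain ⟨δ, hδ, hδ'⟩ := Metric.mem_nhdsWithin_iff.1 h1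
    refine ⟨δ, hδ, fun y hy hyx => ?_⟩
    -- along the rays
    have hlim1 : Tendsto (fun t : ℝ => |w (t • y) - w (t • x0)|) (𝓝[<] 1) (𝓝 |w y - w x0|) := by
      have hc : Continuous fun t : ℝ => |w (t • y) - w (t • x0)| := by fun_prop
      have := (hc.tendsto 1).mono_left (nhdsWithin_le_nhds (s := Iio 1))
      simpa using this
    have hlim2 : Tendsto (fun t : ℝ => ε * ‖t • y - t • x0‖) (𝓝[<] 1) (𝓝 (ε * ‖y - x0‖)) := by
      have hc : Continuous fun t : ℝ => ε * ‖t • y - t • x0‖ := by fun_prop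
      have := (hc.tendsto 1).mono_left (nhdsWithin_le_nhds (s := Iio 1))
      simpa using this
    have hnear : ∀ᶠ t : ℝ in 𝓝[<] 1, t • y ∈ ball (0 : E n) 1 ∩ ball x0 δ ∧
        t • x0 ∈ ball (0 : E n) 1 ∩ ball x0 δ := by
      have ha : ∀ᶠ t : ℝ in 𝓝[<] 1, t • y ∈ ball x0 δ := by
        have hc : Continuous fun t : ℝ => t • y := by fun_prop
        refine ((hc.tendsto 1).mono_left nhdsWithin_le_nhds).eventually (isOpen_ball.mem_nhds ?_)
        simp only [one_smul]
        rw [mem_ball, dist_eq_norm]; exact hyx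
      have hb' : ∀ᶠ t : ℝ in 𝓝[<] 1, t • x0 ∈ ball x0 δ := by
        have hc : Continuous fun t : ℝ => t • x0 := by fun_prop
        refine ((hc.tendsto 1).mono_left nhdsWithin_le_nhds).eventually (isOpen_ball.mem_nhds ?_)
        simp only [one_smul]
        exact mem_ball_self hδ
      have hpos : ∀ᶠ t : ℝ in 𝓝[<] 1, 0 < t :=
        nhdsWithin_le_nhds (lt_mem_nhds (show (0 : ℝ) < 1 from one_pos))
      filter_upwards [ha, hb', hpos, self_mem_nhdsWithin] with t h1 h2 h3 h4
      have h4' : t < 1 := h4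
      refine ⟨⟨?_, h1⟩, ?_, h2⟩
      · rw [mem_ball_zero_iff, norm_smul, Real.norm_of_nonneg h3.le]
        nlinarith [norm_nonneg y]
      · rw [mem_ball_zero_iff, norm_smul, Real.norm_of_nonneg h3.le, hx0, mul_one]
        exact h4'
    refine le_of_tendsto_of_tendsto hlim1 hlim2 ?_
    filter_upwards [hnear] with t ht
    rw [← hwv ht.1.1, ← hwv ht.2.1]
    refine pot_mean ((convex_ball 0 1).inter (convex_ball x0 δ)) (fun z hz => hvg z hz.1)
      (fun z hz => ?_) ht.2 ht.1
    have : z ∈ {y | ‖g y‖ < ε} := hδ' ⟨hz.2, ball_subset_closedBall hz.1⟩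
    exact le_of_lt this
  refine ⟨fun x => w (pot_rho x) + ‖x‖ ^ 2 / 2, fun x => ?_⟩
  by_cases hx : ‖x‖ < 1
  · rw [if_pos hx]
    refine (hu x (by rw [mem_ball_zero_iff]; exact hx)).congr_of_eventuallyEq ?_
    have h1 : ball (0 : E n) 1 ∈ 𝓝 x := isOpen_ball.mem_nhds (by rw [mem_ball_zero_iff]; exact hx)
    filter_upwards [h1] with y hy
    have hy' : ‖y‖ ≤ 1 := (mem_ball_zero_iff.1 hy).le
    rw [pot_rho_of_le hy', ← hwv hy, hv]
    ring
  · rw [if_neg hx]
    have hx' : 1 ≤ ‖x‖ := not_lt.1 hx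
    have h0 : HasGradientAt (fun y => w (pot_rho y)) 0 x := by
      rw [hasGradientAt_iff_isLittleO]
      rw [Asymptotics.isLittleO_iff]
      intro c hc
      obtain ⟨δ, hδ, hδ'⟩ := flat (pot_rho x) (pot_rho_norm_eq hx') (c / 2) (by positivity)
      filter_upwards [ball_mem_nhds x (show 0 < δ / 2 by positivity)] with y hy
      rw [mem_ball, dist_eq_norm] at hy
      have h1 := pot_rho_lip y x
      have h2 := hδ' (pot_rho y) (pot_rho_norm_le y) (by linarith)
      rw [inner_zero_left, sub_zero, Real.norm_eq_abs]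
      calc |w (pot_rho y) - w (pot_rho x)| ≤ c / 2 * ‖pot_rho y - pot_rho x‖ := h2
        _ ≤ c / 2 * (2 * ‖y - x‖) := by gcongr
        _ = c * ‖y - x‖ := by ring
    have := pot_add h0 (pot_sq x)
    rwa [zero_add] at this

theorem pot_ray {U : E n → ℝ} {F : E n → E n} (hU : ∀ x, HasGradientAt U (F x) x)
    (hout : ∀ x, 1 ≤ ‖x‖ → F x = x) {e : E n} (he : ‖e‖ = 1) {t : ℝ} (ht : 1 ≤ t) :
    U (t • e) = U e + (t ^ 2 - 1) / 2 := by
  have hder : ∀ s : ℝ, HasDerivAt (fun s : ℝ => U (s • e) - s ^ 2 / 2)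
      (⟪F (s • e), e⟫ - s) s := by
    intro s
    have h1 : HasDerivAt (fun s : ℝ => s • e) e s := by
      simpa using (hasDerivAt_id s).smul_const e
    have h2 := (hasGradientAt_iff_hasFDerivAt.1 (hU (s • e))).comp_hasDerivAt s h1
    have h3 : HasDerivAt (fun s : ℝ => s ^ 2 / 2) s s := by
      have := (hasDerivAt_pow 2 s).div_const 2
      simpa using this
    have h4 := h2.sub h3
    simp only [InnerProductSpace.toDual_apply_apply] at h4
    exact h4
  have := constant_of_has_deriv_right_zero (f := fun s : ℝ => U (s • e) - s ^ 2 / 2)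
    (a := 1) (b := t) (fun s _ => (hder s).continuousAt.continuousWithinAt) (fun s hs => by
      have h1 : F (s • e) = s • e := hout _ (by
        rw [norm_smul, he, mul_one, Real.norm_of_nonneg (by linarith [hs.1])]; exact hs.1)
      have h2 := (hder s).hasDerivWithinAt (s := Ici s)
      rw [h1, inner_smul_left, real_inner_self_eq_norm_sq, he] at h2
      simpa using h2) t ⟨ht, le_rfl⟩
  simp only [one_smul] at this
  linarith

theorem convex_of_injective (U : E n → ℝ) (F : E n → E n) (hU : ∀ x, HasGradientAt U (F x) x)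
    (hF : Function.Injective F) (hout : ∀ x, 1 ≤ ‖x‖ → F x = x) : ConvexOn ℝ univ U := by
  have hUc : Continuous U := continuous_iff_continuousAt.2 fun x => (hU x).continuousAt
  -- a lower bound on the closed unit ball
  obtain ⟨m, hm⟩ := (isCompact_closedBall (0 : E n) 1).bddBelow_image hUc.continuousOn
  have hlow : ∀ z : E n, 1 ≤ ‖z‖ → m + (‖z‖ ^ 2 - 1) / 2 ≤ U z := by
    intro z hz
    have hz0 : 0 < ‖z‖ := by linarith
    have he : ‖‖z‖⁻¹ • z‖ = 1 := by
      rw [norm_smul, norm_inv, norm_norm]; exact inv_mul_cancel₀ hz0.ne'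
    have h1 := pot_ray hU hout he hz
    rw [smul_smul, mul_inv_cancel₀ hz0.ne', one_smul] at h1
    have h2 : m ≤ U (‖z‖⁻¹ • z) := hm (mem_image_of_mem _ (by
      rw [mem_closedBall_zero_iff]; exact he.le))
    linarith
  have supp : ∀ x w : E n, U x + ⟪F x, w - x⟫ ≤ U w := by
    intro x w
    set g : E n → ℝ := fun z => U z - ⟪F x, z⟫ with hg
    have hgc : Continuous g := hUc.sub (by fun_prop)
    have hgi : Tendsto g (cocompact (E n)) atTop := by
      have h1 : Tendsto (fun r : ℝ => r * (r / 2 - ‖F x‖) + (m - 1 / 2)) atTop atTop := by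
        refine tendsto_atTop_add_const_right _ _ (Tendsto.atTop_mul_atTop₀ tendsto_id ?_)
        exact tendsto_atTop_add_const_right _ _ (tendsto_id.atTop_div_const (by norm_num))
      have h2 := h1.comp (tendsto_norm_cocompact_atTop (E := E n))
      refine tendsto_atTop_mono' _ ?_ h2
      have h3 : ∀ᶠ z in cocompact (E n), (1 : ℝ) ≤ ‖z‖ :=
        tendsto_norm_cocompact_atTop.eventually (eventually_ge_atTop 1)
      filter_upwards [h3] with z hz
      have h4 := hlow z hz
      have h5 := real_inner_le_norm (F x) z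
      simp only [Function.comp, hg]
      nlinarith
    obtain ⟨z, hz⟩ := hgc.exists_forall_le hgi
    have hgz : HasGradientAt g (F z - F x) z := by
      refine pot_sub (hU z) ?_
      rw [hasGradientAt_iff_hasFDerivAt]
      exact ((InnerProductSpace.toDual ℝ (E n)) (F x)).hasFDerivAt
    have hzero : F z - F x = 0 := by
      have h1 : IsLocalMin g z := Filter.Eventually.of_forall hz
      have h2 := h1.hasFDerivAt_eq_zero (hasGradientAt_iff_hasFDerivAt.1 hgz)
      exact (LinearIsometryEquiv.map_eq_zero_iff _).1 h2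
    have hzx : z = x := hF (sub_eq_zero.1 hzero)
    have h6 := hz w
    rw [hzx] at h6
    simp only [hg] at h6
    rw [inner_sub_right]
    linarith
  refine ⟨convex_univ, fun p _ q _ a b ha hb hab => ?_⟩
  set x := a • p + b • q with hx
  have h1 := supp x p
  have h2 := supp x q
  have h3 : a * ⟪F x, p - x⟫ + b * ⟪F x, q - x⟫ = 0 := by
    rw [← inner_smul_right, ← inner_smul_right, ← inner_add_right]
    have : a • (p - x) + b • (q - x) = 0 := by
      rw [smul_sub, smul_sub]
      have : a • p - a • x + (b • q - b • x) = (a • p + b • q) - (a + b) • x := by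
        rw [add_smul]; abel
      rw [this, hab, one_smul, hx, sub_self]
    rw [this, inner_zero_right]
  simp only [smul_eq_mul]
  have h4 := mul_le_mul_of_nonneg_left h1 ha
  have h5 := mul_le_mul_of_nonneg_left h2 hb
  have h6 : a * U x + b * U x = U x := by rw [← add_mul, hab, one_mul]
  rw [mul_add] at h4 h5
  linarith

end Pool.Agent.H56.QC
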