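import Pool.Agent.H56.QC.Defs

/-! M4 : basic facts on Theta. -/

set_option autoImplicit false

namespace Pool.Agent.H56.QC

open MeasureTheory Set Filter Topology Metric
open scoped RealInnerProductSpace ENNReal

variable {n : ℕ}

/-- Positivity of the form on a compact set is an open condition. -/
theorem theta_open_of_compact (K : Set (E n)) (hK : IsCompact K) :
    IsOpen {A : E n →L[ℝ] E n | ∀ v ∈ K, 0 < ⟪A v, v⟫} := by
  rw [isOpen_iff_mem_nhds]
  intro A hA
  have hc : Continuous (fun z : (E n →L[ℝ] E n) × E n => ⟪z.1 z.2, z.2⟫) := by fun_prop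
  apply hK.eventually_forall_of_forall_eventually
  intro v hv
  have := hc.continuousAt (x := (A, v))
  exact Filter.Tendsto.eventually_const_lt (hA v hv) this

theorem theta_pos_scale (A : E n →L[ℝ] E n) (v : E n) (hv : v ≠ 0)
    (h : 0 < ⟪A ((‖v‖)⁻¹ • v), (‖v‖)⁻¹ • v⟫) : 0 < ⟪A v, v⟫ := by
  rw [map_smul, real_inner_smul_left, real_inner_smul_right] at h
  have hv' : 0 < ‖v‖⁻¹ := inv_pos.mpr (norm_pos_iff.mpr hv)
  have h2 : 0 < ‖v‖⁻¹ * ‖v‖⁻¹ * ⟪A v, v⟫ := by linarith [h, mul_assoc ‖v‖⁻¹ ‖v‖⁻¹ ⟪A v, v⟫]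
  exact (mul_pos_iff_of_pos_left (mul_pos hv' hv')).mp h2

theorem theta_pos1_iff (e : E n) (A : E n →L[ℝ] E n) :
    (∀ v : E n, v ≠ 0 → ⟪e, v⟫ = 0 → 0 < ⟪A v, v⟫) ↔
      ∀ v ∈ sphere (0 : E n) 1 ∩ {v | ⟪e, v⟫ = 0}, 0 < ⟪A v, v⟫ := by
  constructor
  · rintro h v ⟨hv, hv2⟩
    apply h v _ hv2
    rintro rfl
    simp at hv
  · intro h v hv hv2
    apply theta_pos_scale A v hv
    apply h
    refine ⟨?_, ?_⟩
    · simp [norm_smul, norm_ne_zero_iff.mpr hv]
    · simp only [mem_ofPred_eq, real_inner_smul_right, hv2, mul_zero]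

theorem isOpen_pos0 : IsOpen {A : E n →L[ℝ] E n | Pos0 A} := by
  have h := theta_open_of_compact (sphere (0 : E n) 1 ∩ {v | ⟪(0 : E n), v⟫ = 0})
    ((isCompact_sphere _ _).inter_right (isClosed_eq (by fun_prop) (by fun_prop)))
  convert h using 1
  ext A
  simp only [mem_ofPred_eq]
  rw [← theta_pos1_iff]
  simp [Pos0]

theorem isOpen_pos1 : IsOpen {A : E n →L[ℝ] E n | Pos1 A} := by
  have : {A : E n →L[ℝ] E n | Pos1 A} =
      ⋃ e : E n, {A : E n →L[ℝ] E n | ∀ v ∈ sphere (0 : E n) 1 ∩ {v | ⟪e, v⟫ = 0},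
        0 < ⟪A v, v⟫} := by
    ext A
    simp only [mem_ofPred_eq, mem_iUnion, Pos1]
    exact exists_congr (fun e => theta_pos1_iff e A)
  rw [this]
  apply isOpen_iUnion
  intro e
  exact theta_open_of_compact _
    ((isCompact_sphere _ _).inter_right (isClosed_eq (by fun_prop) (by fun_prop)))

theorem exists_diag (S : E n →L[ℝ] E n) (hS : Sym S) :
    ∃ (b : OrthonormalBasis (Fin n) ℝ (E n)) (l : Fin n → ℝ), ∀ i, S (b i) = l i • b i := by
  have hT : (S : E n →ₗ[ℝ] E n).IsSymmetric := fun v w => hS v w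
  have hn : Module.finrank ℝ (E n) = n := by simp
  refine ⟨hT.eigenvectorBasis hn, hT.eigenvalues hn, fun i => ?_⟩
  exact hT.apply_eigenvectorBasis hn i

theorem det_diag (S : E n →L[ℝ] E n) (b : OrthonormalBasis (Fin n) ℝ (E n)) (l : Fin n → ℝ)
    (h : ∀ i, S (b i) = l i • b i) : S.det = ∏ i, l i := by
  have h1 : LinearMap.toMatrix b.toBasis b.toBasis (S : E n →ₗ[ℝ] E n) = Matrix.diagonal l := by
    ext i j
    rw [LinearMap.toMatrix_apply]
    simp only [OrthonormalBasis.coe_toBasis, ContinuousLinearMap.coe_coe, h,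
      map_smul, Finsupp.smul_apply, smul_eq_mul]
    rw [← OrthonormalBasis.coe_toBasis, Module.Basis.repr_self]
    by_cases hij : i = j
    · subst hij
      simp
    · rw [Matrix.diagonal_apply_ne _ hij, Finsupp.single_eq_of_ne (by tauto), mul_zero]
  have h2 := LinearMap.det_toMatrix b.toBasis (S : E n →ₗ[ℝ] E n)
  rw [h1, Matrix.det_diagonal] at h2
  exact h2.symm

theorem theta_quad (S : E n →L[ℝ] E n) (b : OrthonormalBasis (Fin n) ℝ (E n)) (l : Fin n → ℝ)
    (h : ∀ i, S (b i) = l i • b i) (c : Fin n → ℝ) :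
    ⟪S (∑ i, c i • b i), ∑ i, c i • b i⟫ = ∑ i, l i * c i ^ 2 := by
  have h1 : S (∑ i, c i • b i) = ∑ i, (c i * l i) • b i := by
    rw [map_sum]
    apply Finset.sum_congr rfl
    intro i _
    rw [map_smul, h, smul_smul]
  rw [h1]
  rw [b.orthonormal.inner_sum]
  apply Finset.sum_congr rfl
  intro i _
  simp
  ring

theorem theta_pos0_diag (S : E n →L[ℝ] E n) (b : OrthonormalBasis (Fin n) ℝ (E n))
    (l : Fin n → ℝ) (h : ∀ i, S (b i) = l i • b i) : Pos0 S ↔ ∀ i, 0 < l i := by
  constructor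
  · intro hp i
    have h1 := hp (b i) (b.orthonormal.ne_zero i)
    rw [h, real_inner_smul_left, real_inner_self_eq_norm_sq, b.orthonormal.1 i] at h1
    simpa using h1
  · intro hl v hv
    have hv2 := b.sum_repr v
    rw [← hv2, theta_quad S b l h]
    have hne : ∃ i, b.repr v i ≠ 0 := by
      by_contra hcon
      push Not at hcon
      apply hv
      rw [← hv2]
      simp [hcon]
    obtain ⟨i, hi⟩ := hne
    apply Finset.sum_pos'
    · intro j _
      exact mul_nonneg (hl j).le (sq_nonneg _)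
    · exact ⟨i, Finset.mem_univ i, mul_pos (hl i) (by positivity)⟩

/-- on the plane spanned by two eigenvectors with negative (nonpositive) eigenvalues there is
a nonzero vector orthogonal to a given vector -/
theorem theta_plane (e x y : E n) (hxy : ⟪x, y⟫ = 0) (hx : x ≠ 0) (hy : y ≠ 0) :
    ∃ s t : ℝ, s • x + t • y ≠ 0 ∧ ⟪e, s • x + t • y⟫ = 0 := by
  by_cases h : ⟪e, x⟫ = 0
  · exact ⟨1, 0, by simpa using hx, by simpa using h⟩
  · refine ⟨⟪e, y⟫, -⟪e, x⟫, ?_, ?_⟩
    · intro h0
      have h1 : ⟪⟪e, y⟫ • x + (-⟪e, x⟫) • y, y⟫ = 0 := by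
        rw [h0, inner_zero_left]
      rw [inner_add_left, real_inner_smul_left, real_inner_smul_left, hxy, mul_zero, zero_add,
        real_inner_self_eq_norm_sq] at h1
      have h2 : ‖y‖ ≠ 0 := norm_ne_zero_iff.mpr hy
      have h3 : ‖y‖ ^ 2 ≠ 0 := by positivity
      rcases mul_eq_zero.mp h1 with h4 | h4
      · exact h (by linarith)
      · exact h3 h4
    · rw [inner_add_right, real_inner_smul_right, real_inner_smul_right]
      ring

theorem theta_pos1_diag (S : E n →L[ℝ] E n) (b : OrthonormalBasis (Fin n) ℝ (E n))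
    (l : Fin n → ℝ) (h : ∀ i, S (b i) = l i • b i) :
    Pos1 S ↔ (Finset.univ.filter (fun i => l i ≤ 0)).card ≤ 1 := by
  constructor
  · rintro ⟨e, he⟩
    rw [Finset.card_le_one]
    intro i hi j hj
    rw [Finset.mem_filter] at hi hj
    by_contra hij
    have hxy : ⟪b i, b j⟫ = 0 := b.orthonormal.2 hij
    obtain ⟨s, t, h0, h1⟩ := theta_plane e (b i) (b j) hxy (b.orthonormal.ne_zero i)
      (b.orthonormal.ne_zero j)
    have h2 := he _ h0 h1
    have hyx : ⟪b j, b i⟫ = 0 := b.orthonormal.2 (Ne.symm hij)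
    have h3 : ⟪S (s • b i + t • b j), s • b i + t • b j⟫ = l i * s ^ 2 + l j * t ^ 2 := by
      rw [map_add, map_smul, map_smul, h, h]
      simp only [inner_add_left, inner_add_right, real_inner_smul_left, real_inner_smul_right,
        hxy, hyx, real_inner_self_eq_norm_sq, b.orthonormal.1]
      ring
    rw [h3] at h2
    have h4 : l i * s ^ 2 ≤ 0 := mul_nonpos_of_nonpos_of_nonneg hi.2 (sq_nonneg s)
    have h5 : l j * t ^ 2 ≤ 0 := mul_nonpos_of_nonpos_of_nonneg hj.2 (sq_nonneg t)
    linarith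
  · intro hc
    by_cases hall : ∀ i, 0 < l i
    · refine ⟨0, fun v hv _ => (theta_pos0_diag S b l h).mpr hall v hv⟩
    · push Not at hall
      obtain ⟨i0, hi0⟩ := hall
      refine ⟨b i0, fun v hv hv2 => ?_⟩
      have hlp : ∀ i, i ≠ i0 → 0 < l i := by
        intro i hi
        by_contra hcon
        rw [Finset.card_le_one] at hc
        exact hi (hc i (by simpa using not_lt.mp hcon) i0 (by simpa using hi0))
      have hr0 : b.repr v i0 = 0 := by rw [b.repr_apply_apply]; exact hv2
      have hv3 := b.sum_repr v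
      rw [← hv3, theta_quad S b l h]
      have hne : ∃ i, b.repr v i ≠ 0 := by
        by_contra hcon
        push Not at hcon
        apply hv
        rw [← hv3]
        simp [hcon]
      obtain ⟨i, hi⟩ := hne
      have hii : i ≠ i0 := by
        rintro rfl
        exact hi hr0
      apply Finset.sum_pos'
      · intro j _
        by_cases hj : j = i0
        · rw [hj, hr0]
          simp
        · exact mul_nonneg (hlp j hj).le (sq_nonneg _)
      · exact ⟨i, Finset.mem_univ i, mul_pos (hlp i hii) (by positivity)⟩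

/-- for a symmetric `A` with `det A ≠ 0` : `det A > 0` iff `Pos0`, inside `Pos1` -/
theorem det_pos_iff (A : E n →L[ℝ] E n) (hA : Sym A) (h1 : Pos1 A) (hd : A.det ≠ 0) :
    0 < A.det ↔ Pos0 A := by
  obtain ⟨b, l, h⟩ := exists_diag A hA
  rw [theta_pos0_diag A b l h]
  have hdet := det_diag A b l h
  rw [theta_pos1_diag A b l h] at h1
  rw [hdet] at hd ⊢
  constructor
  · intro hp
    by_contra hcon
    push Not at hcon
    obtain ⟨i0, hi0⟩ := hcon
    have hi1 : l i0 ≠ 0 := fun h0 => hd (Finset.prod_eq_zero (Finset.mem_univ i0) h0)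
    have hi2 : l i0 < 0 := lt_of_le_of_ne hi0 hi1
    have hlp : ∀ i, i ≠ i0 → 0 < l i := by
      intro i hi
      by_contra hcon
      rw [Finset.card_le_one] at h1
      exact hi (h1 i (by simpa using not_lt.mp hcon) i0 (by simpa using hi0))
    rw [← Finset.mul_prod_erase Finset.univ l (Finset.mem_univ i0)] at hp
    have h3 : 0 < ∏ x ∈ Finset.univ.erase i0, l x := by
      apply Finset.prod_pos
      intro i hi
      exact hlp i (Finset.ne_of_mem_erase hi)
    linarith [mul_neg_of_neg_of_pos hi2 h3]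
  · intro hp
    exact Finset.prod_pos (fun i _ => hp i)

theorem det_pos_of_pos0 (A : E n →L[ℝ] E n) (hA : Sym A) (h0 : Pos0 A) : 0 < A.det := by
  obtain ⟨b, l, h⟩ := exists_diag A hA
  rw [theta_pos0_diag A b l h] at h0
  rw [det_diag A b l h]
  exact Finset.prod_pos (fun i _ => h0 i)

theorem symP_sym (A : E n →L[ℝ] E n) : Sym (symP A) := by
  intro v w
  simp only [symP, smul_apply, add_apply,
    real_inner_smul_left, real_inner_smul_right, inner_add_left, inner_add_right,
    ContinuousLinearMap.adjoint_inner_left, ContinuousLinearMap.adjoint_inner_right]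
  ring

theorem symP_eq (A : E n →L[ℝ] E n) (hA : Sym A) : symP A = A := by
  have h : ContinuousLinearMap.adjoint A = A := by
    symm
    rw [ContinuousLinearMap.eq_adjoint_iff]
    exact fun x y => hA x y
  rw [symP, h, ← two_smul ℝ A, smul_smul]
  norm_num

theorem continuous_symP : Continuous (fun A : E n →L[ℝ] E n => symP A) := by
  unfold symP
  have : Continuous (fun A : E n →L[ℝ] E n => ContinuousLinearMap.adjoint A) :=
    (ContinuousLinearMap.adjoint (𝕜 := ℝ) (E := E n) (F := E n)).continuous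
  fun_prop

theorem abs_theta_le_det (A : E n →L[ℝ] E n) : |Theta A| ≤ |A.det| := by
  unfold Theta
  split_ifs
  · exact le_rfl
  · simp

theorem theta_not_pos1 (S : E n →L[ℝ] E n) (x y : E n) (hxy : ⟪x, y⟫ = 0) (hx : x ≠ 0)
    (hy : y ≠ 0) (h : ∀ v ∈ sphere (0 : E n) 1 ∩ (Submodule.span ℝ {x, y} : Set (E n)),
      0 < ⟪(-S) v, v⟫) : ¬ Pos1 S := by
  rintro ⟨e, he⟩
  obtain ⟨s, t, h0, h1⟩ := theta_plane e x y hxy hx hy
  have h2 := he _ h0 h1
  have h3 : 0 < ⟪(-S) (s • x + t • y), s • x + t • y⟫ := by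
    apply theta_pos_scale _ _ h0
    apply h
    refine ⟨?_, ?_⟩
    · rw [mem_sphere_zero_iff_norm, norm_smul, norm_inv, norm_norm]
      exact inv_mul_cancel₀ (norm_ne_zero_iff.mpr h0)
    · apply Submodule.smul_mem
      apply Submodule.add_mem
      · exact Submodule.smul_mem _ _ (Submodule.subset_span (by simp))
      · exact Submodule.smul_mem _ _ (Submodule.subset_span (by simp))
  rw [neg_apply, inner_neg_left] at h3
  linarith

theorem theta_continuous : Continuous (fun A : E n →L[ℝ] E n => Theta (symP A)) := by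
  have hdet : Continuous (fun A : E n →L[ℝ] E n => (symP A).det) :=
    ContinuousLinearMap.continuous_det.comp continuous_symP
  rw [continuous_iff_continuousAt]
  intro A
  by_cases hd : (symP A).det = 0
  · have h0 : Theta (symP A) = 0 := by
      have := abs_theta_le_det (symP A)
      rw [hd, abs_zero] at this
      exact abs_eq_zero.mp (le_antisymm this (abs_nonneg _))
    rw [ContinuousAt, h0]
    apply squeeze_zero_norm (a := fun B : E n →L[ℝ] E n => |(symP B).det|)
    · intro B
      exact abs_theta_le_det (symP B)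
    · have := (hdet.abs).continuousAt (x := A)
      rw [ContinuousAt, hd, abs_zero] at this
      exact this
  · by_cases h1 : Pos1 (symP A)
    · have hev : ∀ᶠ B in 𝓝 A, Pos1 (symP B) :=
        continuous_symP.continuousAt.eventually (isOpen_pos1.mem_nhds h1)
      apply hdet.continuousAt.congr
      filter_upwards [hev] with B hB
      simp [Theta, hB]
    · obtain ⟨b, l, h⟩ := exists_diag (symP A) (symP_sym A)
      rw [det_diag _ b l h] at hd
      have h1' := h1
      rw [theta_pos1_diag _ b l h, Finset.card_le_one] at h1'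
      push Not at h1'
      obtain ⟨i, hi, j, hj, hij⟩ := h1'
      have hi1 : l i < 0 := lt_of_le_of_ne (by simpa using hi)
        (fun h0 => hd (Finset.prod_eq_zero (Finset.mem_univ i) h0))
      have hj1 : l j < 0 := lt_of_le_of_ne (by simpa using hj)
        (fun h0 => hd (Finset.prod_eq_zero (Finset.mem_univ j) h0))
      have hxy : ⟪b i, b j⟫ = 0 := b.orthonormal.2 hij
      have hyx : ⟪b j, b i⟫ = 0 := b.orthonormal.2 (Ne.symm hij)
      set K : Set (E n) := sphere (0 : E n) 1 ∩ (Submodule.span ℝ {b i, b j} : Set (E n)) with hK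
      have hKc : IsCompact K :=
        (isCompact_sphere _ _).inter_right (Submodule.closed_of_finiteDimensional _)
      have hop := theta_open_of_compact K hKc
      have hmem : -(symP A) ∈ {B : E n →L[ℝ] E n | ∀ v ∈ K, 0 < ⟪B v, v⟫} := by
        rintro v ⟨hv, hv2⟩
        rw [SetLike.mem_coe, Submodule.mem_span_pair] at hv2
        obtain ⟨s, t, rfl⟩ := hv2
        have h3 : ⟪(symP A) (s • b i + t • b j), s • b i + t • b j⟫ =
            l i * s ^ 2 + l j * t ^ 2 := by
          rw [map_add, map_smul, map_smul, h, h]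
          simp only [inner_add_left, inner_add_right, real_inner_smul_left, real_inner_smul_right,
            hxy, hyx, real_inner_self_eq_norm_sq, b.orthonormal.1]
          ring
        rw [neg_apply, inner_neg_left, h3]
        have hst : s ≠ 0 ∨ t ≠ 0 := by
          by_contra hcon
          push Not at hcon
          rw [hcon.1, hcon.2] at hv
          simp at hv
        rcases hst with hs | ht
        · have : l i * s ^ 2 < 0 := mul_neg_of_neg_of_pos hi1 (by positivity)
          have h5 : l j * t ^ 2 ≤ 0 := mul_nonpos_of_nonpos_of_nonneg hj1.le (sq_nonneg t)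
          linarith
        · have : l j * t ^ 2 < 0 := mul_neg_of_neg_of_pos hj1 (by positivity)
          have h5 : l i * s ^ 2 ≤ 0 := mul_nonpos_of_nonpos_of_nonneg hi1.le (sq_nonneg s)
          linarith
      have hev : ∀ᶠ B in 𝓝 A, ¬ Pos1 (symP B) := by
        have hcn : ContinuousAt (fun B : E n →L[ℝ] E n => -(symP B)) A :=
          continuous_symP.neg.continuousAt
        filter_upwards [hcn.eventually (hop.mem_nhds hmem)] with B hB
        exact theta_not_pos1 (symP B) (b i) (b j) hxy (b.orthonormal.ne_zero i)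
          (b.orthonormal.ne_zero j) hB
      have hc : ContinuousAt (fun _ : E n →L[ℝ] E n => (0 : ℝ)) A := continuousAt_const
      apply hc.congr
      filter_upwards [hev] with B hB
      simp [Theta, hB]

theorem theta_abs_le_norm (S : E n →L[ℝ] E n) (b : OrthonormalBasis (Fin n) ℝ (E n))
    (l : Fin n → ℝ) (h : ∀ i, S (b i) = l i • b i) (i : Fin n) : |l i| ≤ ‖S‖ := by
  have h1 := S.le_opNorm (b i)
  rw [h, norm_smul, b.orthonormal.1 i, mul_one, mul_one, Real.norm_eq_abs] at h1
  exact h1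

theorem abs_theta_le (A : E n →L[ℝ] E n) (hA : Sym A) : |Theta A| ≤ ‖A‖ ^ n := by
  apply (abs_theta_le_det A).trans
  obtain ⟨b, l, h⟩ := exists_diag A hA
  rw [det_diag A b l h, Finset.abs_prod]
  calc ∏ i, |l i| ≤ ∏ _i : Fin n, ‖A‖ :=
        Finset.prod_le_prod (fun i _ => abs_nonneg _) (fun i _ => theta_abs_le_norm A b l h i)
    _ = ‖A‖ ^ n := by simp

/-- the product of the `l i - a` if at most one of the `l i` is `≤ a` -/
noncomputable def th (l : Fin n → ℝ) (a : ℝ) : ℝ :=
  if (Finset.univ.filter (fun i => l i ≤ a)).card ≤ 1 then ∏ i, (l i - a) else 0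

theorem theta_diag (S : E n →L[ℝ] E n) (b : OrthonormalBasis (Fin n) ℝ (E n)) (l : Fin n → ℝ)
    (h : ∀ i, S (b i) = l i • b i) (a : ℝ) : Theta (S - a • I n) = th l a := by
  have h2 : ∀ i, (S - a • I n) (b i) = (l i - a) • b i := by
    intro i
    rw [sub_apply, h, sub_smul]
    simp
  unfold Theta th
  rw [det_diag _ b _ h2]
  have h3 := theta_pos1_diag _ b _ h2
  simp only [sub_nonpos] at h3
  by_cases h4 : Pos1 (S - a • I n)
  · rw [if_pos h4, if_pos (h3.mp h4)]
  · rw [if_neg h4, if_neg (fun h5 => h4 (h3.mpr h5))]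

theorem norm_diag (hn : 1 ≤ n) (S : E n →L[ℝ] E n) (b : OrthonormalBasis (Fin n) ℝ (E n))
    (l : Fin n → ℝ) (h : ∀ i, S (b i) = l i • b i) (hl : ∀ i, 0 ≤ l i) :
    (∀ i, l i ≤ ‖S‖) ∧ ∃ i, l i = ‖S‖ := by
  have h1 : ∀ i, l i ≤ ‖S‖ := fun i => (le_abs_self _).trans (theta_abs_le_norm S b l h i)
  refine ⟨h1, ?_⟩
  have : Nonempty (Fin n) := ⟨⟨0, hn⟩⟩
  obtain ⟨i0, hi0⟩ := Finite.exists_max l
  refine ⟨i0, le_antisymm (h1 i0) ?_⟩
  apply ContinuousLinearMap.opNorm_le_bound _ (hl i0)
  intro v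
  have hv := b.sum_repr v
  have h2 : S v = ∑ i, (b.repr v i * l i) • b i := by
    conv_lhs => rw [← hv]
    rw [map_sum]
    apply Finset.sum_congr rfl
    intro i _
    rw [map_smul, h, smul_smul]
  have h3 : ‖S v‖ ^ 2 = ∑ i, (b.repr v i * l i) ^ 2 := by
    rw [h2, ← real_inner_self_eq_norm_sq, b.orthonormal.inner_sum]
    apply Finset.sum_congr rfl
    intro i _
    simp
    ring
  have h4 : ‖v‖ ^ 2 = ∑ i, (b.repr v i) ^ 2 := by
    conv_lhs => rw [← hv]
    rw [← real_inner_self_eq_norm_sq, b.orthonormal.inner_sum]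
    apply Finset.sum_congr rfl
    intro i _
    simp
    ring
  apply le_of_sq_le_sq _ (mul_nonneg (hl i0) (norm_nonneg v))
  rw [mul_pow, h3, h4, Finset.mul_sum]
  apply Finset.sum_le_sum
  intro i _
  have h5 : l i ^ 2 ≤ l i0 ^ 2 := pow_le_pow_left₀ (hl i) (hi0 i) 2
  nlinarith [sq_nonneg (b.repr v i)]

end Pool.Agent.H56.QC
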